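import Pool.Agent.N522.EG.Main

/-!
# `MP_b197b4_nt`: finite generation for a class of arithmetic schemes
-/

namespace Pool.Agent.Results.MP_b197b4_nt.GeneratedClass

open Pool.Agent.N522.EG

/-- For all `X` in the class `Gen` the groups `H^i(X_et, ℤ^c(-m))` are finitely generated for `m ≥ 0`
and `i ≤ 2m`.  For `X` proper, regular and connected of dimension `d` these are the groups
`H^k(X_et, ℤ(n))`, `n = d + m ≥ d`, `k = 2d + i ≤ 2n`; Q1 is the case `n = d`. -/
theorem result (T : Theory) (hT : Facts T) :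
    ∀ X, Gen T X → ∀ (m : ℕ) (i : ℤ), i ≤ 2 * (m : ℤ) → AddGroup.FG (T.G X m i) :=
  fun X hX => main T hT X hX

end Pool.Agent.Results.MP_b197b4_nt.GeneratedClass
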