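import Pool.Agent.N876.TW4.Proof

/-!
# Finite generation of étale motivic cohomology in weight `d` for products with cyclic coverings branched along hyperplanes

Let `κ` be a finite field with `q = c ^ f` elements, and `𝒱` a class of smooth projective varieties over
`κ`, closed under products, with Chow groups `A` with rational coefficients and a Weil cohomology theory
`H` (framework of helper492 and helper484: `TheoryData`, `IsChow`, `IsWeil`). Let `X_i` be varieties in
`𝒱`, of any dimensions `n_i`, which are models of cyclic coverings

  `w ^ N_i = ∏ l_{i,k} (x) ^ a_{i,k}`

of projective spaces, branched along hyperplanes `l_{i,k} = 0` over `κ`, with exponents prime to `N_i`,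
where `N_i` divides `q - 1` (`IsModel`, see the definitions: the cohomology is generated by the
classes of cycles and a part `T`, pure of weight `n_i`, without invariants under the covering
group, for which the trace formula holds). Let `N` be a common multiple of the `N_i`, and `λ` an
integer such that `IsSmall N λ` holds: for every nonempty finite set `I` of indices and all `j_i` not
divisible by `N_i` (`i ∈ I`) there is a `u` prime to `N` with
`∑_{i ∈ I} weight X_i (u j_i) + λ / 2 < ∑_{i ∈ I} (n_i / 2 + 1)`; here `weight X j` is the mean over the
orbit `j, c j, …, c ^ (f - 1) j` of the sum of the fractional parts of `j a_k / N_i`.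

Let `U` be **any** smooth proper connected variety over `κ` of dimension `e` (for example a point), and `Z` a
variety in `𝒱` (for example a point). For `X` in `𝒱` and integers `i`, `w` let
* `G X i w = H^i((X × U)_et, ℤ(w))`; for `w = dim X + e` these are the groups of the question for the
  arithmetic scheme `X × U`,
* `T k` the theory `T^w(X) = CH^w(X × U, k) ⊗ ℚ = H^{2w-k}(X × U, ℚ(w))`, so `G X i w ⊗ ℚ = T^w(X)` for
  `k = 2 w - i`, and `φ` the Frobenius endomorphism of `U` on `T k`.
On the groups with rational coefficients act the correspondences between the varieties in `𝒱`, and the
product of `φ` and the Frobenius endomorphism of `X` is `q ^ w` on `T^w(X)` (`IsRelative`,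
`IsIntegralForm`). The following is known and enters as hypothesis: for `w ≥ dim X + e` and `i < 2 w` the
groups `G / m G` and `G[m]`, `G = G X i w`, are finite of bounded order (`IsBounded`: duality for the groups
`H^j((X × U)_et, ℤ/m(w))`, Deligne, Gabber, Milne), and the group of zero cycles
`H^{2w}((X × U)_et, ℤ(w))`, `w = dim X + e`, is finitely generated (Kato and Saito). Let `χ` be a polynomial
with rational coefficients which is satisfied by `φ`. Such a polynomial exists if the motive of `U` is
finite-dimensional. We assume that the products `b` of the eigenvalues of the Frobenius on `H(Z)` and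
the complex roots of `χ` are of the form `|b| ^ 2 = q ^ j` (theorem of Deligne) and that
* either `λ = 0` and the cyclotomic polynomial of order `N` is irreducible over the field generated by
  the numbers `b` (for given `Z` and `U` this is true for all `N` prime to the discriminant of this field),
* or `Z × U` is of level `≤ λ`: the numbers `q ^ λ b / b̄` are algebraic integers. This is true if
  `dim Z + dim U ≤ λ`.
Finally the homologically trivial self-correspondences of degree zero of the products `V` of the `X_i`
and `Z` are assumed to be nilpotent (nothing of this kind is assumed for `U`); this holds if `Z` is a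
point (or dominated by a product of curves) and the `X_i` are curves or have `n_i + 2` branch
hyperplanes in general position, by the theorem of Kimura and O'Sullivan.

**Theorem.** Let `V` be the product of `Z` and of finitely many of the `X_i` (pairwise different), and
`d = dim V - dim Z`, `D = dim V + e` the dimension of `V × U`.
* For `i < 2 D`, **`H^i((V × U)_et, ℤ(D))` is finitely generated if and only if the groups
  `H^{i-2(d-l)}((Z × U)_et, ℤ(dim Z + e + l))`, `0 ≤ l ≤ d`, are finitely generated.** By the projective
  bundle formula the sum of these groups is `H^i((ℙ^d × Z × U)_et, ℤ(D))`. If this is the case, then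
  `H^i((V × U)_et, ℤ(D))` is finite.
* So **the question Q1 for `V × U` is equivalent to Q1 for `ℙ^d × Z × U`**, the same dimension and a simpler
  variety; if `Z` is a point, to Q1 for `ℙ^d × U`. In particular Q1 is true for `V × U` if `Z` and `U` are
  points or curves. The same is true for the groups in the degrees `0 ≤ i ≤ 2 D` alone.
* If `V = X_i × V'`, then there are finitely many algebraic cycles `D j` on `X_i`, which do not depend
  on `U` or `k`, such that `T k (V) = ⨁ D j × T k (V')` for all `k`: a Künneth formula for the motivic
  cohomology of `V × U` with rational coefficients.

Examples. (a) Let `X_i` be curves `y ^ N_i = ∏ (x - x_{i,k})` with `N_i` factors, of genus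
`(N_i - 1) (N_i - 2) / 2`, for different prime numbers `N_i` dividing `c - 1`. Then `weight X_i j` is the
residue of `j` modulo `N_i`, and `IsSmall N 0` holds for the product `N` of the `N_i` (take `u` with
`u j_i = 1` modulo `N_i`). (b) Let `X` be the variety `w ^ N = l_1 ⋯ l_N` of dimension `n = N - 2`, with
`N` hyperplanes in general position, for a prime number `N` dividing `c - 1` (the resolutions are
Calabi-Yau varieties). The weight for `u j = 1` is `1`, so `IsSmall N λ` holds for all `λ < n`: the
theorem applies to **all smooth proper varieties `U` of dimension smaller than `dim X`** with a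
polynomial `χ`.

The proof: by the theorem of Stickelberger on Gauss sums and the product formula no product of
eigenvalues of the Frobenius on the parts `T` of several `X_i` and on the cohomology of `Z × U` is a
power of `q`. So the intersection pairing on the algebraic classes of `X_i` is not degenerate; let
`D j`, `E j` be dual systems of cycles on `X_i`, `p = ∑ E j × D j` the projector on `X_i × V'`, `P` a
polynomial with `P (F) H(X_i × V') ⊆ ∑ D j × H(V')`, and `Q (x)` the polynomial with the roots `q ^ a / ρ`,
where `χ (ρ) = 0`. Then `(1 - p) P (F)` is homologically trivial, hence nilpotent; a power of `Q (F)`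
is zero on `T^a(X_i × V')`, and `P` and `Q` are prime to each other, so `1 - p` is zero on
`T^a(X_i × V')` (the idea to play the eigenvalues of Frobenius off against nilpotence is due to Soulé,
Geisser and Kahn). So the groups with rational coefficients of `V × U` vanish if and only if those of
`ℙ^d × Z × U` do. A finitely generated abelian group `G` such that the orders of the groups `G / m G` are
bounded is a torsion group, and a torsion group `G` such that the orders of the groups `G[m]` are
bounded is finite.

helper876; built on the library of the starting files (estimates of sums over hyperplane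
arrangements by Gauss sums: helper528 and helpers 800, 883, 135, 563, 271, 540, 400, 999, 782, 605,
346; traces on eigenspaces: helper117; correspondences, nilpotence and the Kunneth formula: helpers
484, 492, 550; the idea to work relative to a scheme: helper156).
-/

set_option autoImplicit false

open Polynomial CategoryTheory AlgebraicGeometry

namespace Pool.Agent.Results.MP_b197b4_nt.HyperplaneCoverings

open Pool.Agent.H914 Pool.Agent.H914.VarClass Pool.Agent.H914.VarClass.Obj Pool.Agent.W492.BB
  Pool.Agent.W484.CK Pool.Agent.N876.TW4

/-- **Finite generation of étale motivic cohomology in weight `d` for products with cyclic coverings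
branched along hyperplanes.** -/
theorem result (c : ℕ) [Fact c.Prime] (κ : Type) [Field κ] [Fintype κ] [CharP κ c] {ι : Type}
    (C : ι → Covering κ) (f N lam : ℕ) (hC : IsSmallSystem C c f N lam)
    {𝒱 : VarClass κ} (A : TheoryData.{0, 0, 0} 𝒱 ℚ) [IsChow A] {K : Type} [Field K]
    [IsAlgClosed K] [CharZero K] (H : WeilTheoryData.{0, 0, 0} A K) [IsWeil H] (τ : K →+* ℂ)
    (F : ∀ X : 𝒱.Obj, X ⟶ X) (X : ι → 𝒱.Obj) (Z : 𝒱.Obj) (χ : ℚ[X])
    (h : IsCoveringSystem C N lam H τ F X Z χ) (hnil : ∀ L, Nilpotence H (productOf X Z L))
    (T : ℤ → MotivicData A) (φ : ∀ k X, (T k).M X →ₗ[ℚ] (T k).M X)
    (hT : ∀ k, IsRelative (T k) (φ k) F (Fintype.card κ) χ) (e : ℕ)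
    (G : 𝒱.Obj → ℤ → ℤ → Type) [∀ X i w, AddCommGroup (G X i w)] (hG : IsEtale T e G)
    (L : List ι) (hL : L.Nodup) :
    Conclusions (A := A) F (Fintype.card κ) {ρ : K | aeval ρ χ = 0} X Z e G L :=
  main c κ C f N lam hC A H τ F X Z χ h hnil T φ hT e G hG L hL

end Pool.Agent.Results.MP_b197b4_nt.HyperplaneCoverings
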